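import Pool.Agent.Helper30.ML.Goals

/-!
# Packet KM of project ML: no `K₅` minor in a MacLane graph
-/

set_option autoImplicit false

namespace Pool.Agent.Helper50.ML

open scoped Classical
open Finset
open Pool.Agent.Helper30.ML
open Pool.Agent.Helper94.KC (Proper InChain KStep KEq AllEq dR QG Even2)

theorem reach_image {V : Type} (G : SimpleGraph V) (r : V → V) (A A' : Set V)
    (hA : ∀ a ∈ A, r a ∈ A') {a b : V} (h : (rs G A).Reachable a b) :
    (rs (QG G r) A').Reachable (r a) (r b) := by
  obtain ⟨w⟩ := h
  induction w with
  | nil => exact SimpleGraph.Reachable.refl _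
  | @cons u v x huv _ ih =>
    refine SimpleGraph.Reachable.trans ?_ ih
    by_cases hr : r u = r v
    · rw [hr]
    · apply SimpleGraph.Adj.reachable
      exact ⟨⟨hr, u, v, rfl, rfl, huv.1⟩, hA u huv.2.1, hA v huv.2.2⟩

theorem step {V : Type} [Fintype V] (hCT : StmtCT) (hSD : StmtSD) (N : ℕ) :
    ∀ (G : SimpleGraph V) (B : Fin 5 → Finset V), ∑ i, (B i).card = N → Mac G →
    (∀ i j, i ≠ j → Disjoint (B i) (B j)) → (∀ i, ConS G (B i : Set V)) →
    (∀ i j, i ≠ j → ∃ x ∈ B i, ∃ y ∈ B j, G.Adj x y) → False := by
  induction N using Nat.strong_induction_on with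
  | _ N ih =>
    intro G B hN hG hdis hcon hadj
    by_cases hcard : ∀ i, (B i).card ≤ 1
    · have h1 : ∀ i, ∃ w, B i = {w} := by
        intro i
        have h2 : (B i).Nonempty := by
          obtain ⟨x, hx⟩ := (hcon i).1
          exact ⟨x, hx⟩
        exact Finset.card_eq_one.mp (le_antisymm (hcard i) h2.card_pos)
      choose w hw using h1
      apply hSD.2.2 V G w hG
      intro i j hij
      obtain ⟨x, hx, y, hy, hxy⟩ := hadj i j hij
      rw [hw, Finset.mem_singleton] at hx hy
      rw [← hx, ← hy]
      exact hxy
    · push Not at hcard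
      obtain ⟨i₀, hi₀⟩ := hcard
      obtain ⟨u, hu, v, hv, huv⟩ := Finset.one_lt_card.mp hi₀
      obtain ⟨p, q, hp, hq, hpq⟩ : ∃ p q, p ∈ B i₀ ∧ q ∈ B i₀ ∧ G.Adj p q := by
        obtain ⟨w⟩ := (hcon i₀).2 u hu v hv
        cases w with
        | nil => exact absurd rfl huv
        | @cons _ u' _ h _ => exact ⟨u, u', hu, h.2.2, h.1⟩
      have hne : p ≠ q := hpq.ne
      obtain ⟨r, hr⟩ : ∃ r : V → V, r = cr p q := ⟨_, rfl⟩
      have hrq : r q = p := by rw [hr]; simp [cr]
      have hrn : ∀ a, a ≠ q → r a = a := by
        intro a ha
        rw [hr]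
        simp [cr, ha]
      have hrne : ∀ a, r a ≠ q := by
        intro a
        by_cases ha : a = q
        · rw [ha, hrq]
          exact hne
        · rw [hrn a ha]
          exact ha
      have hrB : ∀ i, ∀ a ∈ B i, r a ∈ B i := by
        intro i a ha
        by_cases haq : a = q
        · have hii : i = i₀ := by
            by_contra hii
            have := Finset.disjoint_left.mp (hdis i i₀ hii) ha
            rw [haq] at this
            exact this hq
          rw [haq, hrq, hii]
          exact hp
        · rw [hrn a haq]
          exact ha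
      have hsub : ∀ i, (B i).image r ⊆ B i := by
        intro i x hx
        obtain ⟨a, ha, rfl⟩ := Finset.mem_image.mp hx
        exact hrB i a ha
      have hlt : ∑ i, ((B i).image r).card < N := by
        rw [← hN]
        apply Finset.sum_lt_sum
        · intro i _
          exact Finset.card_le_card (hsub i)
        · refine ⟨i₀, Finset.mem_univ _, ?_⟩
          apply Finset.card_lt_card
          refine ⟨hsub i₀, ?_⟩
          intro h
          obtain ⟨a, _, ha⟩ := Finset.mem_image.mp (h hq)
          exact hrne a ha
      have hdis' : ∀ i j, i ≠ j → Disjoint ((B i).image r) ((B j).image r) := by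
        intro i j hij
        exact Finset.disjoint_of_subset_left (hsub i)
          (Finset.disjoint_of_subset_right (hsub j) (hdis i j hij))
      refine ih _ hlt (QG G r) (fun i => (B i).image r) rfl ?_ hdis' ?_ ?_
      · rw [hr]
        exact hCT V G p q hG hpq
      · intro i
        constructor
        · obtain ⟨x, hx⟩ := (hcon i).1
          exact ⟨r x, by
            rw [Finset.mem_coe]
            exact Finset.mem_image_of_mem r hx⟩
        · intro x hx y hy
          rw [Finset.mem_coe] at hx hy
          obtain ⟨a, ha, rfl⟩ := Finset.mem_image.mp hx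
          obtain ⟨b, hb, rfl⟩ := Finset.mem_image.mp hy
          apply reach_image G r (B i : Set V)
          · intro c hc
            rw [Finset.mem_coe]
            exact Finset.mem_image_of_mem r hc
          · exact (hcon i).2 a ha b hb
      · intro i j hij
        obtain ⟨x, hx, y, hy, hxy⟩ := hadj i j hij
        have hx' : r x ∈ (B i).image r := Finset.mem_image_of_mem r hx
        have hy' : r y ∈ (B j).image r := Finset.mem_image_of_mem r hy
        refine ⟨r x, hx', r y, hy', ?_, x, y, rfl, rfl, hxy⟩
        intro he
        rw [he] at hx'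
        exact Finset.disjoint_left.mp (hdis' i j hij) hx' hy'

theorem pKM (hCT : StmtCT) (hSD : StmtSD) : Pool.Agent.Helper30.ML.StmtKM := by
  intro V _ G B hG hdis hcon hadj
  exact step hCT hSD _ G B rfl hG hdis hcon hadj

end Pool.Agent.Helper50.ML
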